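import Pool.Agent.D0H61.RO.Stm
import Pool.Agent.D0H65.CP.One2

/-!
Module ONE5 (for helper61).
-/

set_option autoImplicit false

open Filter Topology MeasureTheory Finset

namespace Pool.Agent.D0H65.RO

open Pool.Agent.D0H61.CC Pool.Agent.D0H61.CP Pool.Agent.D0H61.RO Pool.Agent.D0H65.CC Pool.Agent.D0H65.CP

/-- measurability -/
theorem bg_meas' {Ω : Type*} [MeasurableSpace Ω] (C : ℕ) (S : Ω → Set ℕ)
    (hS : ∀ n : ℕ, MeasurableSet {ω | n ∈ S ω}) : MeasurableSet {ω | Bg C (S ω)} := by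
  classical
  have e : {ω | Bg C (S ω)} = ⋃ k : ℕ, {ω | ∃ᶠ N : ℕ in atTop,
      1 / ((k : ℝ) + 1) * (N : ℝ) ≤ (upTo (S ω) N).card * Real.log N ^ C} := by
    ext ω
    simp only [Set.mem_iUnion]
    constructor
    · rintro ⟨δ, hδ, h⟩
      obtain ⟨k, hk⟩ := exists_nat_one_div_lt hδ
      refine ⟨k, h.mono fun N hN => ?_⟩
      exact (mul_le_mul_of_nonneg_right hk.le (Nat.cast_nonneg N)).trans hN
    · rintro ⟨k, h⟩
      exact ⟨1 / ((k : ℝ) + 1), by positivity, h⟩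
  rw [e]
  refine MeasurableSet.iUnion fun k => ?_
  have e2 : {ω | ∃ᶠ N : ℕ in atTop, 1 / ((k : ℝ) + 1) * (N : ℝ) ≤
      (upTo (S ω) N).card * Real.log N ^ C} = ⋂ m : ℕ, ⋃ N : ℕ, ⋃ (_ : m ≤ N),
        {ω | 1 / ((k : ℝ) + 1) * (N : ℝ) ≤ (upTo (S ω) N).card * Real.log N ^ C} := by
    ext x
    simp only [Set.mem_ofPred_eq, frequently_atTop, Set.mem_iInter, Set.mem_iUnion]
    refine forall_congr' fun k => ?_
    constructor
    · rintro ⟨n, h1, h2⟩; exact ⟨n, h1, h2⟩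
    · rintro ⟨n, h1, h2⟩; exact ⟨n, h1, h2⟩
  rw [e2]
  refine MeasurableSet.iInter fun m => MeasurableSet.iUnion fun N => MeasurableSet.iUnion fun _ => ?_
  have h1 : Measurable fun ω => ((upTo (S ω) N).card : ℝ) := by
    have e3 : (fun ω => ((upTo (S ω) N).card : ℝ)) = fun ω => ∑ n ∈ Icc 1 N,
        ({ω | n ∈ S ω} : Set Ω).indicator (fun _ => (1 : ℝ)) ω := by
      funext ω
      unfold upTo
      rw [Finset.card_filter]
      push_cast
      refine Finset.sum_congr rfl fun n _ => ?_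
      rw [Set.indicator_apply]
      rfl
    rw [e3]
    exact Finset.measurable_sum _ fun n _ => measurable_const.indicator (hS n)
  exact measurableSet_le measurable_const (h1.mul_const _)

/-- Module ONE5. -/
theorem t_ONE5 : S_PW → S_PW4 → S_CORE5 → S_DEN → S_ONE5 := by
  intro hPW hPW4 hCore hDen h hh κ γ a b hκ0 hκ1 hγ
  refine hDen {α | Bg 3 (twoS h κ γ a b α)} (bg_meas' 3 _ (twoS_meas h κ γ a b)) ?_
  intro R hR
  obtain ⟨c₀, hc₀, c, hc, η₀, hη₀, hη₀1, hcore⟩ := hCore h hh κ γ a b R hκ0 hκ1 hγ hR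
  refine ⟨c, hc, η₀, hη₀, ?_⟩
  intro α₀ η hα1 hα2 hη hηη
  have hη1 : η ≤ 1 := hηη.trans hη₀1
  have hev := ev_pow' hh (hcore α₀ η hα1 hα2 hη hηη)
  obtain ⟨-, hcard, -, -⟩ := hPW h hh η hη hη1
  obtain ⟨c', hc', hbig⟩ := hPW4 h hh η hη hη1
  set I : Set ℝ := Set.Icc α₀ (α₀ * (1 + 3 * η)) with hIdef
  let GM : ℕ → Finset ℕ := fun M => (pw h η M).image (· ^ h)
  let T : ℕ → Set ℝ := fun M => {α : ℝ | α ∈ I ∧
    c₀ * ((GM M).card : ℝ) ≤ Mc κ γ a b (GM M) α * Real.log ((M ^ h : ℕ) : ℝ) ^ 2}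
  have hTm : ∀ M, MeasurableSet (T M) := by
    intro M
    have e : T M = I ∩ {α : ℝ | c₀ * ((GM M).card : ℝ) ≤
      Mc κ γ a b (GM M) α * Real.log ((M ^ h : ℕ) : ℝ) ^ 2} := rfl
    rw [e]
    exact measurableSet_Icc.inter
      (measurableSet_le measurable_const ((Mc_meas κ γ a b _).mul_const _))
  have hfreq : ∃ᶠ M in atTop, ENNReal.ofReal (c * η) ≤ volume (T M) := by
    apply Filter.Eventually.frequently
    filter_upwards [hev] with M hM
    exact hM (GM M) ⟨M, rfl, rfl⟩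
  have hlim := limsup_meas T hTm I (by rw [hIdef, Real.volume_Icc]; exact ENNReal.ofReal_ne_top)
    (fun N α h => h.1) _ hfreq
  refine hlim.trans (measure_mono ?_)
  intro α hα
  refine ⟨?_, ?_⟩
  · change Bg 3 (twoS h κ γ a b α)
    have hh0 : (0 : ℝ) < h := by exact_mod_cast hh
    refine ⟨c₀ * c' / (2 * (h : ℝ) ^ 2), by positivity, ?_⟩
    have htt : Tendsto (fun N : ℕ => 2 * N) atTop atTop :=
      tendsto_atTop_mono (fun N => by simp only [id]; omega) tendsto_id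
    refine htt.frequently ?_
    have hlogev : ∀ᶠ M : ℕ in atTop, 1 ≤ Real.log M :=
      (Real.tendsto_log_atTop.comp tendsto_natCast_atTop_atTop).eventually_ge_atTop _
    refine (Frequently.and_eventually hα (hbig.and hlogev)).mono ?_
    rintro M ⟨⟨-, h2⟩, h3, h4⟩
    have hlog0 : 0 < Real.log M := by linarith
    have hM0 : (0 : ℝ) < M := by
      rcases Nat.eq_zero_or_pos M with h5 | h5
      · rw [h5] at hlog0
        simp at hlog0
      · exact_mod_cast h5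
    have hlog3 : Real.log M ≤ Real.log ((2 * M : ℕ) : ℝ) := by
      refine Real.log_le_log hM0 ?_
      push_cast
      linarith
    have hlogh : Real.log ((M ^ h : ℕ) : ℝ) = h * Real.log M := by
      push_cast
      rw [Real.log_pow]
    rw [hlogh] at h2
    have hMc : (Mc κ γ a b (GM M) α : ℝ) ≤ (upTo (twoS h κ γ a b α) (2 * M)).card := by
      exact_mod_cast Mc_le h hh η hη hη1 κ γ a b M α
    have hcardM : ((GM M).card : ℝ) = (pw h η M).card := by
      exact_mod_cast hcard M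
    rw [hcardM] at h2
    have h5 : c₀ * (c' * (M : ℝ)) ≤
        (upTo (twoS h κ γ a b α) (2 * M)).card * ((h : ℝ) ^ 2 * Real.log M ^ 3) := by
      calc c₀ * (c' * (M : ℝ)) ≤ c₀ * ((pw h η M).card * Real.log M) :=
            mul_le_mul_of_nonneg_left h3 hc₀.le
        _ = (c₀ * (pw h η M).card) * Real.log M := by ring
        _ ≤ (Mc κ γ a b (GM M) α * (h * Real.log M) ^ 2) * Real.log M :=
            mul_le_mul_of_nonneg_right h2 hlog0.le
        _ = Mc κ γ a b (GM M) α * ((h : ℝ) ^ 2 * Real.log M ^ 3) := by ring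
        _ ≤ _ := mul_le_mul_of_nonneg_right hMc (by positivity)
    have h6 : Real.log M ^ 3 ≤ Real.log ((2 * M : ℕ) : ℝ) ^ 3 := pow_le_pow_left₀ hlog0.le hlog3 _
    have h7 : c₀ * c' / (2 * (h : ℝ) ^ 2) * ((2 * M : ℕ) : ℝ) = c₀ * (c' * (M : ℝ)) / (h : ℝ) ^ 2 := by
      push_cast
      field_simp
    rw [h7, div_le_iff₀ (by positivity)]
    calc c₀ * (c' * (M : ℝ)) ≤
        (upTo (twoS h κ γ a b α) (2 * M)).card * ((h : ℝ) ^ 2 * Real.log M ^ 3) := h5
      _ ≤ (upTo (twoS h κ γ a b α) (2 * M)).card *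
          ((h : ℝ) ^ 2 * Real.log ((2 * M : ℕ) : ℝ) ^ 3) := by
          gcongr
      _ = _ := by ring
  · obtain ⟨N, hN⟩ := Frequently.exists hα
    exact hN.1

end Pool.Agent.D0H65.RO
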